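import Pool.Agent.W663.SX.Stm

set_option autoImplicit false
open scoped Matrix.Norms.L2Operator Matrix ComplexOrder

noncomputable section

namespace Pool.Agent.W737.SX

open Pool.Agent.W659.EC (IsCP IsCPC MPos isCP_iff)
open Pool.Agent.W663.SX

lemma mpos_rank {A : Type} [CStarAlgebra A] {n : ℕ} (X : Fin n → A) :
    MPos (Matrix.of fun p q => star (X p) * X q : Matrix (Fin n) (Fin n) A) := by
  cases n with
  | zero => exact ⟨0, by ext i; exact i.elim0⟩
  | succ n =>
    refine ⟨Matrix.of fun a q => if a = 0 then X q else 0, ?_⟩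
    ext p q
    rw [Matrix.mul_apply, Finset.sum_eq_single (0 : Fin (n + 1))]
    · simp [Matrix.conjTranspose_apply]
    · intro b _ hb
      simp [Matrix.conjTranspose_apply, hb]
    · intro h
      exact absurd (Finset.mem_univ _) h

theorem t : S_PS := by
  intro A _ k g n M
  set X : Fin n → Fin k → Fin n → A := fun r m q => ∑ i, (M r q) m i • star (g i) with hX
  have key : (Mᴴ * M).map (lift g) =
      ∑ r : Fin n, ∑ m : Fin k, (Matrix.of fun p q => star (X r m p) * X r m q :
        Matrix (Fin n) (Fin n) A) := by
    ext p q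
    rw [Matrix.map_apply, Matrix.mul_apply, map_sum, Matrix.sum_apply]
    refine Finset.sum_congr rfl fun r _ => ?_
    rw [Matrix.sum_apply]
    have h1 : lift g (Mᴴ p r * M r q) =
        ∑ j, ∑ i, ∑ m, (star (M r p m j) * M r q m i) • (g j * star (g i)) := by
      change ∑ j, ∑ i, (Mᴴ p r * M r q) j i • (g j * star (g i)) = _
      refine Finset.sum_congr rfl fun j _ => Finset.sum_congr rfl fun i _ => ?_
      rw [Matrix.mul_apply, Finset.sum_smul]
      refine Finset.sum_congr rfl fun m _ => ?_
      rfl
    rw [h1]
    have h2 : ∀ m : Fin k, (Matrix.of fun p q => star (X r m p) * X r m q :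
        Matrix (Fin n) (Fin n) A) p q =
        ∑ j, ∑ i, (star (M r p m j) * M r q m i) • (g j * star (g i)) := by
      intro m
      simp only [Matrix.of_apply, hX, star_sum, star_smul, star_star, Finset.sum_mul,
        Finset.mul_sum, smul_mul_smul_comm]
      exact Finset.sum_comm
    simp only [h2]
    calc ∑ j, ∑ i, ∑ m, (star (M r p m j) * M r q m i) • (g j * star (g i))
        = ∑ j, ∑ m, ∑ i, (star (M r p m j) * M r q m i) • (g j * star (g i)) :=
          Finset.sum_congr rfl fun j _ => Finset.sum_comm
      _ = ∑ m, ∑ j, ∑ i, (star (M r p m j) * M r q m i) • (g j * star (g i)) :=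
          Finset.sum_comm
  have hpos : MPos ((Mᴴ * M).map (lift g)) := by
    rw [key]
    exact MPos.sum _ fun r _ => MPos.sum _ fun m _ => mpos_rank _
  exact hpos

end Pool.Agent.W737.SX
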